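import Pool.Agent.E8helper1.TX.Asm
import Pool.Agent.E8helper56.TX.Main

set_option autoImplicit false
set_option linter.unusedSectionVars false

/-!
# The assembly on the level of matrices (TX4-ASM)
-/

namespace Pool.Agent.E8helper41.TX

open Matrix Module
open Pool.Agent.E8helper1.TX
open Pool.Agent.E8helper56.TX (tpow_mul tpow_one' tpow_dpow uni1 uni2' exp_lemma dpow_star dpow_smul
  dpow_add)
open scoped ComplexOrder

section cj

variable {n : Type} [Fintype n] [DecidableEq n] {P : Matrix n n ℂ} {m : ℕ}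

theorem tinv1 (hP : IsUnit P.det) (m : ℕ) : tpow P⁻¹ m * tpow P m = 1 := by
  rw [tpow_mul, Matrix.nonsing_inv_mul _ hP, tpow_one']

theorem tinv2 (hP : IsUnit P.det) (m : ℕ) : tpow P m * tpow P⁻¹ m = 1 := by
  rw [tpow_mul, Matrix.mul_nonsing_inv _ hP, tpow_one']

theorem cjm_apply (P : Matrix n n ℂ) (A : Op n m) : cjm P m A = tpow P⁻¹ m * A * tpow P m := rfl

theorem cjm_mul (hP : IsUnit P.det) (A B : Op n m) : cjm P m (A * B) = cjm P m A * cjm P m B := by
  rw [cjm_apply, cjm_apply, cjm_apply]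
  calc tpow P⁻¹ m * (A * B) * tpow P m = tpow P⁻¹ m * A * 1 * B * tpow P m := by
        rw [Matrix.mul_one]; simp only [Matrix.mul_assoc]
    _ = tpow P⁻¹ m * A * (tpow P m * tpow P⁻¹ m) * B * tpow P m := by rw [tinv2 hP]
    _ = _ := by simp only [Matrix.mul_assoc]

theorem cjm_back (hP : IsUnit P.det) (A : Op n m) :
    cjm P m (tpow P m * A * tpow P⁻¹ m) = A := by
  rw [cjm_apply]
  calc tpow P⁻¹ m * (tpow P m * A * tpow P⁻¹ m) * tpow P m =
        (tpow P⁻¹ m * tpow P m) * A * (tpow P⁻¹ m * tpow P m) := by simp only [Matrix.mul_assoc]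
    _ = A := by rw [tinv1 hP, Matrix.one_mul, Matrix.mul_one]

theorem cjm_inj (hP : IsUnit P.det) : Function.Injective (cjm P m) := by
  intro A B h
  have h1 : tpow P m * (cjm P m A) * tpow P⁻¹ m = tpow P m * (cjm P m B) * tpow P⁻¹ m := by rw [h]
  have h2 : ∀ A : Op n m, tpow P m * (cjm P m A) * tpow P⁻¹ m = A := by
    intro A
    rw [cjm_apply]
    calc tpow P m * (tpow P⁻¹ m * A * tpow P m) * tpow P⁻¹ m =
        (tpow P m * tpow P⁻¹ m) * A * (tpow P m * tpow P⁻¹ m) := by simp only [Matrix.mul_assoc]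
      _ = A := by rw [tinv2 hP, Matrix.one_mul, Matrix.mul_one]
  rwa [h2, h2] at h1

theorem cjm_comm (hP : IsUnit P.det) (A B : Op n m) :
    cjm P m A * cjm P m B = cjm P m B * cjm P m A ↔ A * B = B * A := by
  rw [← cjm_mul hP, ← cjm_mul hP]
  exact (cjm_inj hP).eq_iff

theorem cjm_tpow (g : Matrix n n ℂ) : cjm P m (tpow g m) = tpow (P⁻¹ * g * P) m := by
  rw [cjm_apply, tpow_mul, tpow_mul]

theorem cjm_dpow (hP : IsUnit P.det) (x : Matrix n n ℂ) :
    cjm P m (dpow x m) = dpow (P⁻¹ * x * P) m := by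
  rw [cjm_apply]
  exact tpow_dpow _ _ _ (Matrix.nonsing_inv_mul _ hP)

theorem back (hP : IsUnit P.det) (x : Matrix n n ℂ) : P⁻¹ * (P * x * P⁻¹) * P = x := by
  calc P⁻¹ * (P * x * P⁻¹) * P = (P⁻¹ * P) * x * (P⁻¹ * P) := by simp only [Matrix.mul_assoc]
    _ = x := by rw [Matrix.nonsing_inv_mul _ hP, Matrix.one_mul, Matrix.mul_one]

end cj

section bc

variable {K : Type} [Field K] [Algebra K ℂ]

theorem mem_bcM {N : Type} [Fintype N] [DecidableEq N] {A : Submodule K (Matrix N N K)}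
    {M : Matrix N N K} (h : M ∈ A) : M.map (algebraMap K ℂ) ∈ bcM K A :=
  Submodule.subset_span ⟨M, h, rfl⟩

theorem bcM_mono {N : Type} [Fintype N] [DecidableEq N] {A B : Submodule K (Matrix N N K)}
    (h : A ≤ B) : bcM K A ≤ bcM K B :=
  Submodule.span_mono (Set.image_mono h)

/-- a matrix which commutes with a set of matrices over `K` commutes with the span -/
theorem comm_bcM {N : Type} [Fintype N] [DecidableEq N] {A : Submodule K (Matrix N N K)}
    {X : Matrix N N ℂ} (h : ∀ M ∈ A, M.map (algebraMap K ℂ) * X = X * M.map (algebraMap K ℂ)) :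
    ∀ M ∈ bcM K A, M * X = X * M := by
  intro M hM
  refine Submodule.span_induction (p := fun M _ => M * X = X * M) ?_ ?_ ?_ ?_ hM
  · rintro _ ⟨M, hM, rfl⟩
    exact h M hM
  · rw [zero_mul, mul_zero]
  · intro x y _ _ hx hy
    rw [add_mul, mul_add, hx, hy]
  · intro c x _ hx
    rw [Matrix.smul_mul, Matrix.mul_smul, hx]

theorem map_mul' {N : Type} [Fintype N] [DecidableEq N] (A B : Matrix N N K) :
    (A * B).map (algebraMap K ℂ) = A.map (algebraMap K ℂ) * B.map (algebraMap K ℂ) :=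
  Matrix.map_mul

variable {n : Type} [Fintype n] [DecidableEq n]

theorem tpowK_map (g : Matrix n n K) (m : ℕ) :
    (tpowK K g m).map (algebraMap K ℂ) = tpow (g.map (algebraMap K ℂ)) m := by
  ext I J
  rw [Matrix.map_apply, tpowK, map_prod]
  rfl

theorem dpowK_map (x : Matrix n n K) (m : ℕ) :
    (dpowK K x m).map (algebraMap K ℂ) = dpow (x.map (algebraMap K ℂ)) m := by
  ext I J
  rw [Matrix.map_apply]
  simp only [dpowK, dpow, Matrix.map_apply]
  rw [map_sum]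
  refine Finset.sum_congr rfl fun i _ => ?_
  split_ifs
  · rfl
  · rw [map_zero]

/-- `1 ⊗ B` over a field -/
def oneK {m : ℕ} (B : Matrix (Fin m → n) (Fin m → n) K) :
    Matrix (Fin (m + 1) → n) (Fin (m + 1) → n) K :=
  fun I J => if I 0 = J 0 then B (fun i => I i.succ) (fun i => J i.succ) else 0

theorem oneK_map {m : ℕ} (B : Matrix (Fin m → n) (Fin m → n) K) :
    (oneK B).map (algebraMap K ℂ) = oneT (B.map (algebraMap K ℂ)) := by
  ext I J
  rw [Matrix.map_apply]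
  simp only [oneK, oneT, Matrix.map_apply]
  split_ifs
  · rfl
  · rw [map_zero]

theorem sum_cons {m : ℕ} {F : Type} [AddCommMonoid F] (f : (Fin (m + 1) → n) → F) :
    ∑ L, f L = ∑ a, ∑ L : Fin m → n, f (Fin.cons a L) := by
  rw [← Fintype.sum_prod_type' (f := fun (a : n) (L : Fin m → n) => f (Fin.cons a L))]
  exact (Fintype.sum_equiv (Fin.consEquiv fun _ : Fin (m + 1) => n)
    (fun x : n × (Fin m → n) => f (Fin.cons x.1 x.2)) f fun x => rfl).symm

theorem oneK_tpow {m : ℕ} {B : Matrix (Fin m → n) (Fin m → n) K} {g : Matrix n n K}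
    (h : B * tpowK K g m = tpowK K g m * B) :
    oneK B * tpowK K g (m + 1) = tpowK K g (m + 1) * oneK B := by
  have h0 : ∀ I J : Fin (m + 1) → n, tpowK K g (m + 1) I J =
      g (I 0) (J 0) * tpowK K g m (fun i => I i.succ) (fun i => J i.succ) :=
    fun I J => Fin.prod_univ_succ _
  ext I J
  rw [Matrix.mul_apply, Matrix.mul_apply, sum_cons, sum_cons]
  have h1 := congrFun (congrFun h fun i => I i.succ) fun i => J i.succ
  rw [Matrix.mul_apply, Matrix.mul_apply] at h1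
  have e1 : ∀ a, ∑ L : Fin m → n, oneK B I (Fin.cons a L : Fin (m + 1) → n) *
      tpowK K g (m + 1) (Fin.cons a L : Fin (m + 1) → n) J =
      if I 0 = a then g a (J 0) * ∑ L, B (fun i => I i.succ) L *
        tpowK K g m L (fun i => J i.succ) else 0 := by
    intro a
    by_cases ha : I 0 = a
    · rw [if_pos ha, Finset.mul_sum]
      refine Finset.sum_congr rfl fun L _ => ?_
      rw [h0]
      simp only [oneK, Fin.cons_zero, Fin.cons_succ]
      rw [if_pos ha]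
      ring
    · rw [if_neg ha]
      refine Finset.sum_eq_zero fun L _ => ?_
      simp only [oneK, Fin.cons_zero]
      rw [if_neg ha, zero_mul]
  have e2 : ∀ a, ∑ L : Fin m → n, tpowK K g (m + 1) I (Fin.cons a L : Fin (m + 1) → n) *
      oneK B (Fin.cons a L : Fin (m + 1) → n) J =
      if a = J 0 then g (I 0) a * ∑ L, tpowK K g m (fun i => I i.succ) L *
        B L (fun i => J i.succ) else 0 := by
    intro a
    by_cases ha : a = J 0
    · rw [if_pos ha, Finset.mul_sum]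
      refine Finset.sum_congr rfl fun L _ => ?_
      rw [h0]
      simp only [oneK, Fin.cons_zero, Fin.cons_succ]
      rw [if_pos ha]
      ring
    · rw [if_neg ha]
      refine Finset.sum_eq_zero fun L _ => ?_
      simp only [oneK, Fin.cons_zero]
      rw [if_neg ha, mul_zero]
  rw [Finset.sum_congr rfl fun a _ => e1 a, Finset.sum_congr rfl fun a _ => e2 a,
    Finset.sum_ite_eq, Finset.sum_ite_eq', if_pos (Finset.mem_univ _), if_pos (Finset.mem_univ _),
    h1]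

theorem trL_oneT {m : ℕ} (A : Op n m) : trL (oneT A) = (Fintype.card n : ℂ) • A := by
  ext I J
  simp only [trL, oneT, Fin.cons_zero, Fin.cons_succ, if_true, Finset.sum_const, Finset.card_univ,
    Matrix.smul_apply, nsmul_eq_mul, smul_eq_mul]

/-- from the power `m + k` to the power `m` -/
theorem descend [Nonempty n] {Γ : Type} [Group Γ] (R : Γ →* Matrix n n K) (p : Matrix n n K)
    (S : ∀ m, Submodule K (Matrix (Fin m → n) (Fin m → n) K)) (P0 : PSys0 n)
    (hP0 : ∀ m, P0.S m = bcM K (S m)) (hD2 : S_DIM2) (m : ℕ)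
    (h : PotOp R p (m + 1) ≤ S (m + 1)) : PotOp R p m ≤ S m := by
  intro A hA
  obtain ⟨⟨Δ, hΔ, h1⟩, h2⟩ := hA
  have h3 : oneK A ∈ PotOp R p (m + 1) :=
    ⟨⟨Δ, hΔ, fun g hg => oneK_tpow (h1 g hg)⟩, oneK_tpow h2⟩
  have h4 : (oneK A).map (algebraMap K ℂ) ∈ P0.S (m + 1) := by
    rw [hP0]
    exact mem_bcM (h h3)
  rw [oneK_map] at h4
  have h5 := P0.trL_mem h4
  rw [trL_oneT, hP0] at h5
  have hb : (Fintype.card n : ℂ) ≠ 0 := by
    exact_mod_cast (Fintype.card_pos : 0 < Fintype.card n).ne'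
  have h6 := Submodule.smul_mem _ ((Fintype.card n : ℂ)⁻¹) h5
  rw [smul_smul, inv_mul_cancel₀ hb, one_smul] at h6
  exact hD2 K (Fin m → n) (S m) A h6

theorem descend' [Nonempty n] {Γ : Type} [Group Γ] (R : Γ →* Matrix n n K) (p : Matrix n n K)
    (S : ∀ m, Submodule K (Matrix (Fin m → n) (Fin m → n) K)) (P0 : PSys0 n)
    (hP0 : ∀ m, P0.S m = bcM K (S m)) (hD2 : S_DIM2) (m k : ℕ)
    (h : PotOp R p (m + k) ≤ S (m + k)) : PotOp R p m ≤ S m := by
  induction k with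
  | zero => exact h
  | succ k ih => exact ih (descend R p S P0 hP0 hD2 (m + k) h)

end bc

section main

variable {ℓ : ℕ} [Fact ℓ.Prime] [Algebra ℚ_[ℓ] ℂ] {n : Type} [Fintype n] [DecidableEq n]
  {Γ : Type} [Group Γ]

/-- The complex matrices which commute, as derivations, with the space of degree two. -/
def LieC (D : GalData ℓ n Γ) (x : Matrix n n ℂ) : Prop :=
  ∀ A ∈ bcM ℚ_[ℓ] (PotOp D.R D.p 2), A * dpow x 2 = dpow x 2 * A

/-- The operators over `ℂ`, in the new basis. -/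
noncomputable def TC (D : GalData ℓ n Γ) (P : Matrix n n ℂ) (m : ℕ) : Submodule ℂ (Op n m) :=
  (bcM ℚ_[ℓ] (PotOp D.R D.p m)).map (cjm P m)

theorem kills_TC (hL1 : S_LIE1) (hD4 : S_DIM4) (D : GalData ℓ n Γ) (hD : D.NoSkew)
    {P : Matrix n n ℂ} (hP : IsUnit P.det) {x : Matrix n n ℂ}
    (hx : ∀ A ∈ TC D P 2, A * dpow x 2 = dpow x 2 * A) : Kills (TC D P) x := by
  have h1 : LieC D (P * x * P⁻¹) := by
    intro A hA
    rw [← cjm_comm hP, cjm_dpow hP, back hP]
    exact hx _ (Submodule.mem_map_of_mem hA)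
  have h2 := hD4 ℚ_[ℓ] n (PotOp D.R D.p 2) (fun m => PotOp D.R D.p m)
    (fun y hy => hL1 ℓ n Γ D hD y hy) (P * x * P⁻¹) h1
  rintro m _ ⟨A, hA, rfl⟩
  have h3 := h2 m A hA
  rw [← cjm_comm hP, cjm_dpow hP, back hP] at h3
  exact h3

theorem finrank_map_cjm {P : Matrix n n ℂ} (hP : IsUnit P.det) (m : ℕ)
    (A : Submodule ℂ (Op n m)) : finrank ℂ (A.map (cjm P m)) = finrank ℂ A :=
  (Submodule.equivMapOfInjective (cjm P m) (cjm_inj hP) A).finrank_eq.symm

/-- an operator which commutes with the skew-hermitian elements of a self-adjoint space of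
derivations commutes with all -/
theorem skew_all {m : ℕ} (A : Op n m) (N : Matrix n n ℂ → Prop)
    (hadd : ∀ x y (a b : ℂ), N x → N y → N (a • x + b • y)) (hstar : ∀ x, N x → N xᴴ)
    (h : ∀ y, yᴴ = -y → N y → A * dpow y m = dpow y m * A) (x : Matrix n n ℂ) (hx : N x) :
    A * dpow x m = dpow x m * A := by
  have hx' := hstar x hx
  set y1 : Matrix n n ℂ := (1 / 2 : ℂ) • x + (-(1 / 2) : ℂ) • xᴴ with hy1
  set y2 : Matrix n n ℂ := (-(Complex.I / 2)) • x + (-(Complex.I / 2)) • xᴴ with hy2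
  have h1 : y1ᴴ = -y1 := by
    rw [hy1, Matrix.conjTranspose_add, Matrix.conjTranspose_smul, Matrix.conjTranspose_smul,
      Matrix.conjTranspose_conjTranspose]
    ext i j
    simp
  have h2 : y2ᴴ = -y2 := by
    rw [hy2, Matrix.conjTranspose_add, Matrix.conjTranspose_smul, Matrix.conjTranspose_smul,
      Matrix.conjTranspose_conjTranspose]
    ext i j
    simp
    ring
  have h3 : x = y1 + Complex.I • y2 := by
    ext i j
    simp only [hy1, hy2, Matrix.add_apply, Matrix.smul_apply, smul_eq_mul]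
    ring_nf
    rw [Complex.I_sq]
    ring
  have h4 := h y1 h1 (hadd _ _ _ _ hx hx')
  have h5 := h y2 h2 (hadd _ _ _ _ hx hx')
  rw [h3, dpow_add, dpow_smul, mul_add, add_mul, Matrix.mul_smul, Matrix.smul_mul, h4, h5]

/-- the parity in the new basis is unitary -/
theorem parity_unitary {P Q p : Matrix n n ℂ} (hP : IsUnit P.det) (hQ : Qᴴ = Q)
    (hPQP : Pᴴ * Q * P = 1) (hpQ : pᴴ * Q = Q * p) (hp : p * p = 1) :
    P⁻¹ * p * P ∈ Matrix.unitaryGroup n ℂ := by
  have h1 : P⁻¹ = Pᴴ * Q := by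
    have := Matrix.mul_nonsing_inv P hP
    calc P⁻¹ = (Pᴴ * Q * P) * P⁻¹ := by rw [hPQP, Matrix.one_mul]
      _ = Pᴴ * Q * (P * P⁻¹) := by simp only [Matrix.mul_assoc]
      _ = Pᴴ * Q := by rw [this, Matrix.mul_one]
  have h2 : (P⁻¹)ᴴ = Q * P := by
    rw [h1, Matrix.conjTranspose_mul, hQ, Matrix.conjTranspose_conjTranspose]
  have h3 : (P⁻¹ * p * P)ᴴ = P⁻¹ * p * P := by
    rw [Matrix.conjTranspose_mul, Matrix.conjTranspose_mul, h2]
    calc Pᴴ * (pᴴ * (Q * P)) = Pᴴ * (pᴴ * Q) * P := by simp only [Matrix.mul_assoc]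
      _ = Pᴴ * Q * p * P := by rw [hpQ]; simp only [Matrix.mul_assoc]
      _ = P⁻¹ * p * P := by rw [h1]
  rw [Matrix.mem_unitaryGroup_iff', Matrix.star_eq_conjTranspose, h3]
  calc P⁻¹ * p * P * (P⁻¹ * p * P) = P⁻¹ * p * (P * P⁻¹) * p * P := by
        simp only [Matrix.mul_assoc]
    _ = P⁻¹ * (p * p) * P := by
        rw [Matrix.mul_nonsing_inv _ hP, Matrix.mul_one]; simp only [Matrix.mul_assoc]
    _ = 1 := by rw [hp, Matrix.mul_one, Matrix.nonsing_inv_mul _ hP]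

/-- **The double commutant.** -/
theorem mem_TC (hL1 : S_LIE1) (hL2 : S_LIE2) (hD3 : S_DIM3) (hD4 : S_DIM4) (D : GalData ℓ n Γ)
    (hD : D.NoSkew) {P Q : Matrix n n ℂ} (hP : IsUnit P.det) (hQ : Qᴴ = Q)
    (hPQP : Pᴴ * Q * P = 1)
    (hpQ : (D.p.map (algebraMap ℚ_[ℓ] ℂ))ᴴ * Q = Q * D.p.map (algebraMap ℚ_[ℓ] ℂ))
    (hstar : ∀ A ∈ TC D P 2, Aᴴ ∈ TC D P 2)
    (m : ℕ) (A : Op n m)
    (hA : ∀ g ∈ Matrix.unitaryGroup n ℂ, Fixes (TC D P) g → A * tpow g m = tpow g m * A) :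
    A ∈ TC D P m := by
  set pC := D.p.map (algebraMap ℚ_[ℓ] ℂ) with hpC
  -- (1) skew-hermitian elements
  have h1 : ∀ x : Matrix n n ℂ, (∀ B ∈ TC D P 2, B * dpow x 2 = dpow x 2 * B) →
      A * dpow x m = dpow x m * A := by
    refine skew_all A (fun x => ∀ B ∈ TC D P 2, B * dpow x 2 = dpow x 2 * B) ?_ ?_ ?_
    · intro x y a b hx hy B hB
      rw [dpow_add, dpow_smul, dpow_smul, mul_add, add_mul, Matrix.mul_smul, Matrix.mul_smul,
        Matrix.smul_mul, Matrix.smul_mul, hx B hB, hy B hB]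
    · intro x hx B hB
      have h2 := congrArg Matrix.conjTranspose (hx Bᴴ (hstar B hB))
      rw [Matrix.conjTranspose_mul, Matrix.conjTranspose_mul,
        Matrix.conjTranspose_conjTranspose] at h2
      rw [dpow_star]
      exact h2.symm
    · intro y hy hyN
      obtain ⟨g, hgu, hg1, hg2⟩ := exp_lemma y hy m
      exact hg2 A (hA g hgu fun k B hB => hg1 k B (kills_TC hL1 hD4 D hD hP hyN k B hB))
  -- (2) the parity
  have hpp : pC * pC = 1 := by
    rw [hpC, ← map_mul', D.p_mul, Matrix.map_one _ (map_zero _) (map_one _)]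
  have h2 : A * tpow (P⁻¹ * pC * P) m = tpow (P⁻¹ * pC * P) m * A := by
    refine hA _ (parity_unitary hP hQ hPQP hpQ hpp) ?_
    rintro k _ ⟨B, hB, rfl⟩
    rw [← cjm_tpow, cjm_comm hP]
    refine comm_bcM ?_ B hB
    intro M hM
    rw [hpC, ← tpowK_map, ← map_mul', ← map_mul', hM.2]
  -- (3) descent
  set A0 : Op n m := tpow P m * A * tpow P⁻¹ m with hA0
  have hcj : cjm P m A0 = A := cjm_back hP A
  let C : Submodule ℚ_[ℓ] (Matrix (Fin m → n) (Fin m → n) ℚ_[ℓ]) :=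
    { carrier := {M | (∀ x : Matrix n n ℚ_[ℓ],
        (∀ B ∈ PotOp D.R D.p 2, B * dpowK _ x 2 = dpowK _ x 2 * B) →
        M * dpowK _ x m = dpowK _ x m * M) ∧ M * tpowK _ D.p m = tpowK _ D.p m * M}
      zero_mem' := ⟨fun x _ => by rw [zero_mul, mul_zero], by rw [zero_mul, mul_zero]⟩
      add_mem' := by
        rintro M M' ⟨h3, h4⟩ ⟨h3', h4'⟩
        exact ⟨fun x hx => by rw [add_mul, mul_add, h3 x hx, h3' x hx],
          by rw [add_mul, mul_add, h4, h4']⟩
      smul_mem' := by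
        rintro c M ⟨h3, h4⟩
        exact ⟨fun x hx => by rw [Matrix.smul_mul, Matrix.mul_smul, h3 x hx],
          by rw [Matrix.smul_mul, Matrix.mul_smul, h4]⟩ }
  let Y : Set (Matrix (Fin m → n) (Fin m → n) ℚ_[ℓ]) :=
    {y | (∃ x : Matrix n n ℚ_[ℓ], (∀ B ∈ PotOp D.R D.p 2, B * dpowK _ x 2 = dpowK _ x 2 * B) ∧
      y = dpowK _ x m) ∨ y = tpowK _ D.p m}
  have hCY : ∀ M, M ∈ C ↔ ∀ y ∈ Y, M * y = y * M := by
    intro M
    constructor
    · rintro ⟨h3, h4⟩ y (⟨x, hx, rfl⟩ | rfl)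
      · exact h3 x hx
      · exact h4
    · intro h
      exact ⟨fun x hx => h _ (Or.inl ⟨x, hx, rfl⟩), h _ (Or.inr rfl)⟩
  have h5 : A0 ∈ bcM ℚ_[ℓ] C := by
    refine hD3 ℚ_[ℓ] (Fin m → n) Y C hCY A0 ?_
    rintro y (⟨x, hx, rfl⟩ | rfl)
    · rw [dpowK_map, ← cjm_comm hP, cjm_dpow hP, hcj]
      apply h1
      rintro _ ⟨B, hB, rfl⟩
      rw [← cjm_dpow hP, cjm_comm hP]
      refine comm_bcM ?_ B hB
      intro M hM
      rw [← dpowK_map, ← map_mul', ← map_mul', hx M hM]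
    · rw [tpowK_map, ← cjm_comm hP, cjm_tpow, hcj]
      exact h2
  have h6 : C ≤ PotOp D.R D.p m := by
    rintro M ⟨h3, h4⟩
    exact hL2 ℓ n Γ D m M h3 h4
  rw [← hcj]
  exact Submodule.mem_map_of_mem (bcM_mono h6 h5)

/-- **TX4-ASM.** -/
theorem t_ASM' (hL1 : S_LIE1) (hL2 : S_LIE2) (hD1 : S_DIM1) (hD2 : S_DIM2) (hD3 : S_DIM3)
    (hD4 : S_DIM4) (hT : S_TRF) : S_ASM := by
  intro ℓ _ _ n _ _ Γ _ D hD S P0 hP0 Q hQ hstar hpQ hle
  obtain ⟨P, Tt, hP, hPQP, hTS⟩ := hT n P0 Q hQ hstar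
  have hST : ∀ m, Tt.S m ≤ TC D P m := by
    intro m
    rw [hTS m, hP0 m]
    exact Submodule.map_mono (bcM_mono (hle m))
  have hTC2 : PotOp D.R D.p 2 ≤ S 2 → Tt.S 2 = TC D P 2 := by
    intro h
    refine le_antisymm (hST 2) ?_
    rw [hTS 2, hP0 2]
    exact Submodule.map_mono (bcM_mono h)
  constructor
  · intro h m
    have h1 := uni1 Tt (TC D P) (fun x _ hx => kills_TC hL1 hD4 D hD hP
      (fun A hA => hx A ((hTC2 h).ge hA))) m
    have e1 : finrank ℂ (TC D P m) = finrank ℚ_[ℓ] (PotOp D.R D.p m) := by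
      rw [TC, finrank_map_cjm hP, hD1]
    have e2 : finrank ℂ (Tt.S m) = finrank ℚ_[ℓ] (S m) := by
      rw [hTS m, finrank_map_cjm hP, hP0 m, hD1]
    rwa [e1, e2] at h1
  · intro hn m hm2 hm hTm j
    have h2 : PotOp D.R D.p 2 ≤ S 2 := by
      obtain ⟨k, rfl⟩ := Nat.exists_eq_add_of_le hm2
      exact descend' D.R D.p S P0 hP0 hD2 2 k hTm
    have hQh : Qᴴ = Q := hQ.1
    have h3 := uni2' Tt (TC D P) hST (fun x _ hx => kills_TC hL1 hD4 D hD hP
      (fun A hA => hx A ((hTC2 h2).ge hA))) (fun k A hA => mem_TC hL1 hL2 hD3 hD4 D hD hP hQh hPQP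
      hpQ (fun B hB => (hTC2 h2).le (Tt.star_mem ((hTC2 h2).ge hB))) k A
      (fun g hg hF => hA g hg (fun i B hB => hF i B (hST i hB)) hF)) m hm (by
        rw [hTS m, hP0 m]
        exact Submodule.map_mono (bcM_mono hTm)) j
    refine le_antisymm ?_ (hle j)
    rw [TC, hTS j, hP0 j] at h3
    have h4 : bcM ℚ_[ℓ] (PotOp D.R D.p j) = bcM ℚ_[ℓ] (S j) :=
      Submodule.map_injective_of_injective (cjm_inj hP) h3
    intro M hM
    exact hD2 ℚ_[ℓ] (Fin j → n) (S j) M (h4.le (mem_bcM hM))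

/-- **TX4-ASM.** -/
theorem t_ASM (hL1 : S_LIE1) (hL2 : S_LIE2) (hD1 : S_DIM1) (hD2 : S_DIM2) (hD3 : S_DIM3)
    (hD4 : S_DIM4) (_ : S_DIM5) (hT : S_TRF) : S_ASM :=
  t_ASM' hL1 hL2 hD1 hD2 hD3 hD4 hT

end main

end Pool.Agent.E8helper41.TX
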